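import Pool.Agent.Lib.MP_a31e1e_gt.Interfaces

/-!
# Module FEX of project TIGHT (MP_a31e1e_gt)

The smooth defining function `F` of the model: equal to `GG l` in the core cylinder, to `FS`
away from the floor, with zero set the image of the surface, and regular outside the core.
-/

open scoped ContDiff Topology
open Set

namespace Pool.Agent.Tight.H5

noncomputable section

/-! ## Coefficients of the cubic `GG` in `W` and its real root -/

def aa (l : ℝ) (x : E3) : ℝ := 25 * l ^ 2 * (nn x ^ 2 - 3 * l ^ 2 * nn x - 2 * l * dd x)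
def bb (l : ℝ) (x : E3) : ℝ := 250 * l ^ 4 * (nn x - l ^ 2) * cc x
def kk (l : ℝ) (x : E3) : ℝ := √(aa l x / 3)
def w0 (l : ℝ) (x : E3) : ℝ :=
  2 * kk l x * Real.sinh (Real.arsinh (-(bb l x) / (2 * kk l x ^ 3)) / 3)
/-- the height of the core -/
def hc (l : ℝ) (x : E3) : ℝ := -1 - cc x / 2 + w0 l x
/-- the height of the floor -/
def hh (ρ l : ℝ) (x : E3) : ℝ := (1 - chi ρ (nn x)) * hc l x + chi ρ (nn x) * hS x
def phi (ρ n : ℝ) : ℝ := 1 - Real.smoothTransition ((n - ρ ^ 2 / 4) / (3 * ρ ^ 2 / 4))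
def bet (ρ n : ℝ) : ℝ := 1 - Real.smoothTransition ((n - 4 * ρ ^ 2) / (5 * ρ ^ 2))
def gam (w : ℝ) : ℝ := 1 - Real.smoothTransition (((w + 1) ^ 2 - 1 / 64) / (3 / 64))
def EE (ρ l : ℝ) (x : E3) : ℝ :=
  phi ρ (nn x) * GG l x + (1 - phi ρ (nn x)) * (x 2 - hh ρ l x)
def FF (ρ l : ℝ) (x : E3) : ℝ :=
  bet ρ (nn x) * gam (x 2) * EE ρ l x + (1 - bet ρ (nn x) * gam (x 2)) * FS x

lemma GG_eq (l : ℝ) (x : E3) : GG l x = WW x ^ 3 + aa l x * WW x + bb l x := by
  simp only [GG, aa, bb]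

lemma root (l : ℝ) (x : E3) (ha : 0 < aa l x) :
    w0 l x ^ 3 + aa l x * w0 l x + bb l x = 0 := by
  have hk : 0 < kk l x := Real.sqrt_pos.mpr (by positivity)
  have hk2 : kk l x ^ 2 = aa l x / 3 := Real.sq_sqrt (by positivity)
  set θ := Real.arsinh (-(bb l x) / (2 * kk l x ^ 3)) / 3 with hθ
  have h3 : Real.sinh (3 * θ) = -(bb l x) / (2 * kk l x ^ 3) := by
    have : 3 * θ = Real.arsinh (-(bb l x) / (2 * kk l x ^ 3)) := by rw [hθ]; ring
    rw [this, Real.sinh_arsinh]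
  rw [Real.sinh_three_mul] at h3
  have hw : w0 l x = 2 * kk l x * Real.sinh θ := rfl
  have ha' : aa l x = 3 * kk l x ^ 2 := by rw [hk2]; ring
  rw [eq_div_iff (by positivity)] at h3
  rw [hw, ha']
  linear_combination h3

lemma factor (l : ℝ) (x : E3) (ha : 0 < aa l x) :
    GG l x = (x 2 - hc l x) * (WW x ^ 2 + WW x * w0 l x + w0 l x ^ 2 + aa l x) := by
  have h := root l x ha
  rw [GG_eq]
  have h1 : x 2 - hc l x = WW x - w0 l x := by simp only [hc, WW]; ring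
  rw [h1]
  linear_combination h

lemma quad_pos (l : ℝ) (x : E3) (ha : 0 < aa l x) :
    0 < WW x ^ 2 + WW x * w0 l x + w0 l x ^ 2 + aa l x := by
  nlinarith [sq_nonneg (WW x + w0 l x), sq_nonneg (WW x), sq_nonneg (w0 l x)]

lemma GG_zero_iff (l : ℝ) (x : E3) (ha : 0 < aa l x) : GG l x = 0 ↔ x 2 = hc l x := by
  rw [factor l x ha, mul_eq_zero]
  have := quad_pos l x ha
  constructor
  · rintro (h | h)
    · linarith
    · exact absurd h this.ne'
  · intro h; left; linarith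

/-! ## Elementary bounds -/

lemma nn_nonneg (x : E3) : 0 ≤ nn x := by unfold nn; positivity

lemma cc_dd (x : E3) : cc x ^ 2 + dd x ^ 2 = nn x ^ 3 := by
  unfold cc dd nn; ring

lemma cc_sq (x : E3) : cc x ^ 2 ≤ nn x ^ 3 := by nlinarith [cc_dd x, sq_nonneg (dd x)]
lemma dd_sq (x : E3) : dd x ^ 2 ≤ nn x ^ 3 := by nlinarith [cc_dd x, sq_nonneg (cc x)]

lemma aa_pos {l : ℝ} (hl : 0 < l) {x : E3} (hx : 9 * l ^ 2 < nn x) : 0 < aa l x := by
  set r := √(nn x) with hr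
  have hr2 : r ^ 2 = nn x := Real.sq_sqrt (nn_nonneg x)
  have hr0 : 0 ≤ r := Real.sqrt_nonneg _
  have h3 : 3 * l < r := by
    by_contra h
    push Not at h
    nlinarith [mul_self_le_mul_self hr0 h]
  have hd : dd x ≤ r ^ 3 := by
    apply abs_le_of_sq_le_sq' _ (by positivity) |>.2
    calc dd x ^ 2 ≤ nn x ^ 3 := dd_sq x
      _ = (r ^ 3) ^ 2 := by rw [← hr2]; ring
  unfold aa
  rw [← hr2]
  have h1 : 0 < (r ^ 2) ^ 2 - 3 * l ^ 2 * r ^ 2 - 2 * l * r ^ 3 := by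
    have : (r ^ 2) ^ 2 - 3 * l ^ 2 * r ^ 2 - 2 * l * r ^ 3 = r ^ 2 * ((r - 3 * l) * (r + l)) := by
      ring
    rw [this]
    have hrp : 0 < r := by linarith
    have : 0 < r - 3 * l := by linarith
    positivity
  have h2 : 2 * l * dd x ≤ 2 * l * r ^ 3 := by
    apply mul_le_mul_of_nonneg_left hd (by positivity)
  have : 0 < (r ^ 2) ^ 2 - 3 * l ^ 2 * r ^ 2 - 2 * l * dd x := by linarith
  positivity

lemma cc_abs {x : E3} (hx : nn x ≤ 16 / 10000) : |cc x| ≤ 1 / 10000 := by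
  apply abs_le_of_sq_le_sq _ (by norm_num)
  have h0 := nn_nonneg x
  calc cc x ^ 2 ≤ nn x ^ 3 := cc_sq x
    _ ≤ (16 / 10000) ^ 3 := by gcongr
    _ ≤ (1 / 10000) ^ 2 := by norm_num

lemma tt_bounds {x : E3} (hx : nn x ≤ 16 / 10000) :
    399 / 100 ≤ tt x ∧ tt x ≤ 4001 / 1000 := by
  have h := abs_le.mp (cc_abs hx)
  have h0 := nn_nonneg x
  unfold tt
  constructor <;> linarith [h.1, h.2]

lemma sqrt_tt_bounds {x : E3} (hx : nn x ≤ 16 / 10000) :
    1997 / 1000 ≤ √(tt x) ∧ √(tt x) ≤ 2001 / 1000 := by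
  obtain ⟨h1, h2⟩ := tt_bounds hx
  constructor
  · apply Real.le_sqrt_of_sq_le; linarith
  · rw [Real.sqrt_le_left (by norm_num)]; linarith

lemma qq_bounds {x : E3} (hx : nn x ≤ 16 / 10000) : 99 / 100 ≤ qq x ∧ qq x ≤ 102 / 100 := by
  obtain ⟨h1, h2⟩ := sqrt_tt_bounds hx
  have h0 := nn_nonneg x
  unfold qq
  constructor <;> linarith

lemma sqrt_qq_bounds {x : E3} (hx : nn x ≤ 16 / 10000) :
    99 / 100 ≤ √(qq x) ∧ √(qq x) ≤ 102 / 100 := by
  obtain ⟨h1, h2⟩ := qq_bounds hx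
  constructor
  · apply Real.le_sqrt_of_sq_le; linarith
  · rw [Real.sqrt_le_left (by norm_num)]; linarith

lemma qo_bound {x : E3} (hx : nn x ≤ 16 / 10000) : 169 / 10 ≤ qo x := by
  obtain ⟨h1, h2⟩ := sqrt_tt_bounds hx
  unfold qo
  linarith

lemma FS_factor {x : E3} (hx : nn x ≤ 16 / 10000) :
    FS x = (x 2 - hS x) * ((x 2 - √(qq x)) * (x 2 ^ 2 - qo x)) := by
  have ht : √(tt x) ^ 2 = tt x := Real.sq_sqrt (by linarith [(tt_bounds hx).1])
  have hq : √(qq x) ^ 2 = qq x := Real.sq_sqrt (by linarith [(qq_bounds hx).1])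
  have e1 : (x 2 - hS x) * ((x 2 - √(qq x)) * (x 2 ^ 2 - qo x)) =
      (x 2 ^ 2 - √(qq x) ^ 2) * (x 2 ^ 2 - qo x) := by
    unfold hS; ring
  rw [e1, hq]
  have e2 : (x 2 ^ 2 - qq x) * (x 2 ^ 2 - qo x) = mm x ^ 2 - 16 * √(tt x) ^ 2 := by
    unfold qq qo mm; ring
  rw [e2, ht]; rfl

/-- the positive factor of `FS` -/
def PS (x : E3) : ℝ := (x 2 - √(qq x)) * (x 2 ^ 2 - qo x)

lemma PS_pos {x : E3} (hx : nn x ≤ 16 / 10000) (hw : |x 2 + 1| < 1 / 2) : 0 < PS x := by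
  obtain ⟨h1, h2⟩ := sqrt_qq_bounds hx
  have h3 := qo_bound hx
  obtain ⟨h4, h5⟩ := abs_lt.mp hw
  unfold PS
  apply mul_pos_of_neg_of_neg
  · linarith
  · nlinarith

lemma hS_near {x : E3} (hx : nn x ≤ 16 / 10000) : |hS x + 1| < 1 / 8 := by
  obtain ⟨h1, h2⟩ := sqrt_qq_bounds hx
  unfold hS
  rw [abs_lt]; constructor <;> linarith

/-- zeros of `FS` over the floor which are not near `w = -1` -/
lemma FS_zero_far {x : E3} (hx : nn x ≤ 16 / 10000) (h0 : FS x = 0)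
    (hw : 1 / 8 ≤ |x 2 + 1|) : 1 / 4 < |x 2 + 1| := by
  by_contra hcon
  push Not at hcon
  have hp := PS_pos hx (by linarith)
  rw [FS_factor hx] at h0
  rcases mul_eq_zero.mp h0 with h | h
  · have : x 2 = hS x := by linarith
    have := hS_near hx
    rw [← ‹x 2 = hS x›] at this
    linarith
  · exact hp.ne' h

/-! ## Cutoffs -/

lemma phi_one {ρ n : ℝ} (hρ : 0 < ρ) (hn : n ≤ ρ ^ 2 / 4) : phi ρ n = 1 := by
  unfold phi
  rw [Real.smoothTransition.zero_of_nonpos, sub_zero]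
  apply div_nonpos_of_nonpos_of_nonneg
  · linarith
  · positivity

lemma phi_zero {ρ n : ℝ} (hρ : 0 < ρ) (hn : ρ ^ 2 ≤ n) : phi ρ n = 0 := by
  unfold phi
  rw [Real.smoothTransition.one_of_one_le, sub_self]
  rw [le_div_iff₀ (by positivity)]
  linarith

lemma phi_nonneg (ρ n : ℝ) : 0 ≤ phi ρ n := by
  unfold phi
  linarith [Real.smoothTransition.le_one ((n - ρ ^ 2 / 4) / (3 * ρ ^ 2 / 4))]

lemma phi_le_one (ρ n : ℝ) : phi ρ n ≤ 1 := by
  unfold phi
  linarith [Real.smoothTransition.nonneg ((n - ρ ^ 2 / 4) / (3 * ρ ^ 2 / 4))]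

lemma bet_one {ρ n : ℝ} (hρ : 0 < ρ) (hn : n ≤ 4 * ρ ^ 2) : bet ρ n = 1 := by
  unfold bet
  rw [Real.smoothTransition.zero_of_nonpos, sub_zero]
  apply div_nonpos_of_nonpos_of_nonneg
  · linarith
  · positivity

lemma bet_zero {ρ n : ℝ} (hρ : 0 < ρ) (hn : 9 * ρ ^ 2 ≤ n) : bet ρ n = 0 := by
  unfold bet
  rw [Real.smoothTransition.one_of_one_le, sub_self]
  rw [le_div_iff₀ (by positivity)]
  linarith

lemma bet_nonneg (ρ n : ℝ) : 0 ≤ bet ρ n := by
  unfold bet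
  linarith [Real.smoothTransition.le_one ((n - 4 * ρ ^ 2) / (5 * ρ ^ 2))]

lemma bet_le_one (ρ n : ℝ) : bet ρ n ≤ 1 := by
  unfold bet
  linarith [Real.smoothTransition.nonneg ((n - 4 * ρ ^ 2) / (5 * ρ ^ 2))]

lemma gam_one {w : ℝ} (hw : |w + 1| ≤ 1 / 8) : gam w = 1 := by
  unfold gam
  rw [Real.smoothTransition.zero_of_nonpos, sub_zero]
  have h := abs_le.mp hw
  apply div_nonpos_of_nonpos_of_nonneg
  · nlinarith [h.1, h.2]
  · norm_num

lemma gam_zero {w : ℝ} (hw : 1 / 4 ≤ |w + 1|) : gam w = 0 := by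
  unfold gam
  rw [Real.smoothTransition.one_of_one_le, sub_self]
  rw [le_div_iff₀ (by norm_num)]
  have h : (1 / 4 : ℝ) ^ 2 ≤ |w + 1| ^ 2 := by gcongr
  rw [sq_abs] at h
  linarith

lemma gam_nonneg (w : ℝ) : 0 ≤ gam w := by
  unfold gam
  linarith [Real.smoothTransition.le_one (((w + 1) ^ 2 - 1 / 64) / (3 / 64))]

lemma gam_le_one (w : ℝ) : gam w ≤ 1 := by
  unfold gam
  linarith [Real.smoothTransition.nonneg (((w + 1) ^ 2 - 1 / 64) / (3 / 64))]

lemma chi_zero {ρ n : ℝ} (hρ : 0 < ρ) (hn : n ≤ ρ ^ 2) : chi ρ n = 0 := by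
  unfold chi
  apply Real.smoothTransition.zero_of_nonpos
  have : n / ρ ^ 2 ≤ 1 := by rw [div_le_one (by positivity)]; exact hn
  linarith

lemma chi_one {ρ n : ℝ} (hρ : 0 < ρ) (hn : 4 * ρ ^ 2 ≤ n) : chi ρ n = 1 := by
  unfold chi
  apply Real.smoothTransition.one_of_one_le
  have : 4 ≤ n / ρ ^ 2 := by rw [le_div_iff₀ (by positivity)]; exact hn
  linarith

/-! ## The function `FF` -/

lemma FF_eq_FS {ρ l : ℝ} (hρ : 0 < ρ) {x : E3} (h : 9 * ρ ^ 2 ≤ nn x ∨ 1 / 4 ≤ |x 2 + 1|) :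
    FF ρ l x = FS x := by
  unfold FF
  rcases h with h | h
  · rw [bet_zero hρ h]; ring
  · rw [gam_zero h]; ring

lemma FF_eq_GG {ρ l : ℝ} (hρ : 0 < ρ) {x : E3} (h : nn x ≤ ρ ^ 2 / 4) (hw : |x 2 + 1| ≤ 1 / 8) :
    FF ρ l x = GG l x := by
  unfold FF EE
  rw [bet_one hρ (by nlinarith), gam_one hw, phi_one hρ h]; ring

/-- positive factor of `EE` -/
def SS (ρ l : ℝ) (x : E3) : ℝ :=
  phi ρ (nn x) * (WW x ^ 2 + WW x * w0 l x + w0 l x ^ 2 + aa l x) + (1 - phi ρ (nn x))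

lemma SS_pos {ρ l : ℝ} {x : E3} (ha : 0 < aa l x) : 0 < SS ρ l x := by
  unfold SS
  have h := quad_pos l x ha
  have h0 := phi_nonneg ρ (nn x)
  have h1 := phi_le_one ρ (nn x)
  rcases h1.lt_or_eq with h2 | h2
  · have := mul_nonneg h0 h.le
    linarith
  · rw [h2]; linarith

lemma EE_eq {ρ l : ℝ} (hρ : 0 < ρ) {x : E3} (ha : 0 < aa l x) :
    EE ρ l x = (x 2 - hh ρ l x) * SS ρ l x := by
  unfold EE SS
  rcases le_total (nn x) (ρ ^ 2) with h | h
  · have : hh ρ l x = hc l x := by unfold hh; rw [chi_zero hρ h]; ring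
    rw [this, factor l x ha]; ring
  · rw [phi_zero hρ h]; ring

/-- positive factor of `FF` -/
def RR (ρ l : ℝ) (x : E3) : ℝ := bet ρ (nn x) * SS ρ l x + (1 - bet ρ (nn x)) * PS x

lemma RR_pos {ρ l : ℝ} {x : E3} (ha : 0 < aa l x) (hx : nn x ≤ 16 / 10000)
    (hw : |x 2 + 1| < 1 / 2) : 0 < RR ρ l x := by
  unfold RR
  have h := SS_pos (ρ := ρ) ha
  have h' := PS_pos hx hw
  have h0 := bet_nonneg ρ (nn x)
  have h1 := bet_le_one ρ (nn x)
  rcases h0.lt_or_eq with h2 | h2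
  · have := mul_pos h2 h
    have := mul_nonneg (sub_nonneg.mpr h1) h'.le
    linarith
  · rw [← h2]; linarith

lemma FF_eq {ρ l : ℝ} (hρ : 0 < ρ) {x : E3} (ha : 0 < aa l x) (hx : nn x ≤ 16 / 10000)
    (hw : |x 2 + 1| ≤ 1 / 8) :
    FF ρ l x = (x 2 - hh ρ l x) * RR ρ l x := by
  unfold FF RR
  rw [gam_one hw, EE_eq hρ ha]
  rcases le_total (nn x) (4 * ρ ^ 2) with h | h
  · rw [bet_one hρ h]; ring
  · have : hh ρ l x = hS x := by unfold hh; rw [chi_one hρ h]; ring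
    have hf := FS_factor hx
    rw [hf, this]; unfold PS; ring

/-! ## The floor as a graph -/

lemma hc_congr {l : ℝ} {x y : E3} (h0 : x 0 = y 0) (h1 : x 1 = y 1) : hc l x = hc l y := by
  simp only [hc, w0, kk, aa, bb, nn, cc, dd, h0, h1]

lemma nn_congr {x y : E3} (h0 : x 0 = y 0) (h1 : x 1 = y 1) : nn x = nn y := by
  simp only [nn, h0, h1]

lemma cc_congr {x y : E3} (h0 : x 0 = y 0) (h1 : x 1 = y 1) : cc x = cc y := by
  simp only [cc, h0, h1]

lemma aa_congr {l : ℝ} {x y : E3} (h0 : x 0 = y 0) (h1 : x 1 = y 1) : aa l x = aa l y := by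
  simp only [aa, nn, dd, h0, h1]

lemma hS_congr {x y : E3} (h0 : x 0 = y 0) (h1 : x 1 = y 1) : hS x = hS y := by
  simp only [hS, qq, tt, nn, cc, h0, h1]

lemma hh_congr {ρ l : ℝ} {x y : E3} (h0 : x 0 = y 0) (h1 : x 1 = y 1) :
    hh ρ l x = hh ρ l y := by
  simp only [hh, hc_congr h0 h1, nn_congr h0 h1, hS_congr h0 h1]

lemma floorH_eq (hcz : CoreZeroStatement) {ρ l : ℝ} (hl : 0 < l) (b : E2)
    (hb : 9 * l ^ 2 < nn (floorX ρ l b)) : floorX ρ l b 2 = hh ρ l (floorX ρ l b) := by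
  have ha := aa_pos hl hb
  have h0 : floorX ρ l b 0 = l * xiX b := by simp [floorX]
  have h1 : floorX ρ l b 1 = l * xiY b := by simp [floorX]
  have h2 : floorX ρ l b 2 = floorH ρ l b := by simp [floorX]
  have c0 : coreX l b 0 = l * xiX b := by simp [coreX]
  have c1 : coreX l b 1 = l * xiY b := by simp [coreX]
  have c2 : coreX l b 2 = -1 - cc (pl (l * xiX b) (l * xiY b)) / 2
    - 10 * l ^ 3 * (b 1 * Real.sin (3 * b 0)) := by simp [coreX]
  have p0 : pl (l * xiX b) (l * xiY b) 0 = l * xiX b := by simp [pl]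
  have p1 : pl (l * xiX b) (l * xiY b) 1 = l * xiY b := by simp [pl]
  have hg : GG l (coreX l b) = 0 := (hcz l hl _).mpr ⟨b, rfl⟩
  have ha' : 0 < aa l (coreX l b) := by
    rw [aa_congr (c0.trans h0.symm) (c1.trans h1.symm)]; exact ha
  rw [GG_zero_iff l _ ha', c2, hc_congr (c0.trans h0.symm) (c1.trans h1.symm)] at hg
  rw [h2, floorH, hg, hh]
  rw [nn_congr (p0.trans h0.symm) (p1.trans h1.symm),
    hS_congr (p0.trans h0.symm) (p1.trans h1.symm)]

lemma ext3 {x y : E3} (h0 : x 0 = y 0) (h1 : x 1 = y 1) (h2 : x 2 = y 2) : x = y := by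
  ext i; fin_cases i
  · exact h0
  · exact h1
  · exact h2

lemma floor_exists (hfl : FloorRegStatement) {ρ l : ℝ} (hP : Par ρ l) (x : E3) :
    ∃ b, floorX ρ l b 0 = x 0 ∧ floorX ρ l b 1 = x 1 := by
  obtain ⟨b, h0, h1⟩ := (hfl ρ l hP).2.2.2.2.1 x
  exact ⟨b, by simpa [floorX] using h0, by simpa [floorX] using h1⟩

lemma floor_iff (hfl : FloorRegStatement) (hcz : CoreZeroStatement) {ρ l : ℝ} (hP : Par ρ l)
    {x : E3} (hx : 9 * l ^ 2 < nn x) : (∃ b, x = floorX ρ l b) ↔ x 2 = hh ρ l x := by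
  constructor
  · rintro ⟨b, rfl⟩
    exact floorH_eq hcz hP.hl b hx
  · intro h
    obtain ⟨b, h0, h1⟩ := floor_exists hfl hP x
    refine ⟨b, ext3 h0.symm h1.symm ?_⟩
    rw [floorH_eq hcz hP.hl b (by rw [nn_congr h0 h1]; exact hx), hh_congr h0 h1, h]

lemma floor_iff_core (hfl : FloorRegStatement) (hcz : CoreZeroStatement) {ρ l : ℝ}
    (hP : Par ρ l) {x : E3} (hx : nn x ≤ ρ ^ 2) : (∃ b, x = floorX ρ l b) ↔ GG l x = 0 := by
  rw [hcz l hP.hl]
  have key : ∀ b, nn (floorX ρ l b) = nn (coreX l b) := by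
    intro b; apply nn_congr <;> simp [floorX, coreX]
  constructor
  · rintro ⟨b, rfl⟩
    exact ⟨b, (hfl ρ l hP).2.1 b hx⟩
  · rintro ⟨b, rfl⟩
    exact ⟨b, ((hfl ρ l hP).2.1 b (by rw [key]; exact hx)).symm⟩

lemma hh_near (hfl : FloorRegStatement) (hcz : CoreZeroStatement) {ρ l : ℝ}
    (hP : Par ρ l) {x : E3} (hx : 9 * l ^ 2 < nn x) (hx' : nn x ≤ 9 * ρ ^ 2) :
    |hh ρ l x + 1| < 1 / 8 := by
  obtain ⟨b, h0, h1⟩ := floor_exists hfl hP x
  have h := ((hfl ρ l hP).1 b (by rw [nn_congr h0 h1]; exact hx')).2.2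
  rwa [floorH_eq hcz hP.hl b (by rw [nn_congr h0 h1]; exact hx), hh_congr h0 h1] at h

/-! ## Signs between the cylinders -/

lemma par_bounds {ρ l : ℝ} (hP : Par ρ l) :
    9 * l ^ 2 < ρ ^ 2 / 4 ∧ 16 * ρ ^ 2 ≤ 16 / 10000 ∧ l ≤ 1 / 10000 := by
  have h1 := hP.hρ
  have h2 := hP.hρ'
  have h3 := hP.hl
  have h4 := hP.hl'
  have h5 : l ^ 2 ≤ (ρ / 100) ^ 2 := by gcongr
  have h6 : ρ ^ 2 ≤ (1 / 100) ^ 2 := by gcongr
  have h7 : 0 < ρ ^ 2 := by positivity
  refine ⟨?_, ?_, ?_⟩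
  · nlinarith
  · linarith
  · linarith

lemma pos_mul_FS {x : E3} (hx : nn x ≤ 16 / 10000) (h1 : 1 / 8 ≤ |x 2 + 1|)
    (h2 : |x 2 + 1| < 1 / 4) : 0 < (x 2 + 1) * FS x := by
  have hp := PS_pos hx (by linarith)
  have hh := abs_lt.mp (hS_near hx)
  have e : (x 2 + 1) * FS x = ((x 2 + 1) * (x 2 - hS x)) * PS x := by
    rw [FS_factor hx]; unfold PS; ring
  rw [e]
  apply mul_pos _ hp
  rcases le_abs'.mp h1 with h | h
  · apply mul_pos_of_neg_of_neg <;> linarith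
  · apply mul_pos <;> linarith

lemma GG_sign {l : ℝ} (hl : 0 < l) (hl' : l ≤ 1 / 10000) {x : E3} (hx : nn x ≤ 16 / 10000)
    (h1 : 1 / 8 ≤ |x 2 + 1|) : 0 < (x 2 + 1) * GG l x := by
  have hc := abs_le.mp (cc_abs hx)
  have hd : |dd x| ≤ 1 / 10000 := by
    apply abs_le_of_sq_le_sq _ (by norm_num)
    have h0 := nn_nonneg x
    calc dd x ^ 2 ≤ nn x ^ 3 := dd_sq x
      _ ≤ (16 / 10000) ^ 3 := by gcongr
      _ ≤ (1 / 10000) ^ 2 := by norm_num
  have hd' := abs_le.mp hd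
  have h0 := nn_nonneg x
  have hl2 : l ^ 2 ≤ 1 / 100000000 := by
    calc l ^ 2 ≤ (1 / 10000) ^ 2 := by gcongr
      _ = 1 / 100000000 := by norm_num
  have hl20 : 0 ≤ l ^ 2 := by positivity
  have ha : |aa l x| ≤ 1 / 1000 := by
    unfold aa
    have e1 : |nn x ^ 2 - 3 * l ^ 2 * nn x - 2 * l * dd x| ≤ 1 := by
      have a1 : nn x ^ 2 ≤ 1 / 10 := by nlinarith
      have a1' : 0 ≤ nn x ^ 2 := by positivity
      have a2 : 0 ≤ l ^ 2 * nn x := by positivity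
      have a3 : l ^ 2 * nn x ≤ 1 / 10 := by nlinarith
      have a4 : l * dd x ≤ 1 / 10 := by nlinarith [hd'.2]
      have a5 : -(1 / 10) ≤ l * dd x := by nlinarith [hd'.1]
      rw [abs_le]; constructor <;> linarith
    rw [abs_mul, abs_of_nonneg (by positivity : (0:ℝ) ≤ 25 * l ^ 2)]
    have := abs_nonneg (nn x ^ 2 - 3 * l ^ 2 * nn x - 2 * l * dd x)
    nlinarith
  have hb : |bb l x| ≤ 1 / 1000 := by
    unfold bb
    have e1 : |nn x - l ^ 2| ≤ 1 := by rw [abs_le]; constructor <;> linarith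
    have e2 : |cc x| ≤ 1 := by linarith [cc_abs hx]
    have e3 : (l ^ 2) ^ 2 ≤ (1 / 100000000) ^ 2 := by gcongr
    have e4 : 250 * l ^ 4 ≤ 1 / 1000 := by
      have : l ^ 4 = (l ^ 2) ^ 2 := by ring
      rw [this]; linarith
    rw [abs_mul, abs_mul, abs_of_nonneg (by positivity : (0:ℝ) ≤ 250 * l ^ 4)]
    calc 250 * l ^ 4 * |nn x - l ^ 2| * |cc x| ≤ 250 * l ^ 4 * 1 * 1 := by gcongr
      _ ≤ 1 / 1000 := by linarith
  have ha' := abs_le.mp ha
  have hb' := abs_le.mp hb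
  have eW : WW x = x 2 + 1 + cc x / 2 := rfl
  rw [GG_eq]
  set W := WW x with hW
  have eG : W ^ 3 + aa l x * W + bb l x = W * (W ^ 2 + aa l x) + bb l x := by ring
  rw [eG]
  rcases le_abs'.mp h1 with h | h
  · have hw : W ≤ - (12 / 100) := by rw [eW]; linarith [hc.1, hc.2]
    have hq : 1 / 100 ≤ W ^ 2 + aa l x := by nlinarith
    apply mul_pos_of_neg_of_neg
    · linarith
    · nlinarith [mul_le_mul_of_nonneg_right hw (by linarith : (0:ℝ) ≤ W ^ 2 + aa l x)]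
  · have hw : 12 / 100 ≤ W := by rw [eW]; linarith [hc.1, hc.2]
    have hq : 1 / 100 ≤ W ^ 2 + aa l x := by nlinarith
    apply mul_pos
    · linarith
    · nlinarith [mul_le_mul_of_nonneg_right hw (by linarith : (0:ℝ) ≤ W ^ 2 + aa l x)]

lemma EE_sign (hfl : FloorRegStatement) (hcz : CoreZeroStatement) {ρ l : ℝ}
    (hP : Par ρ l) {x : E3} (hx : nn x ≤ 9 * ρ ^ 2)
    (h1 : 1 / 8 ≤ |x 2 + 1|) : 0 < (x 2 + 1) * EE ρ l x := by
  obtain ⟨b1, b2, b3⟩ := par_bounds hP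
  rcases le_or_gt (nn x) (ρ ^ 2 / 4) with h | h
  · have : EE ρ l x = GG l x := by unfold EE; rw [phi_one hP.hρ h]; ring
    rw [this]
    have h7 : 0 < ρ ^ 2 := by have := hP.hρ; positivity
    exact GG_sign hP.hl b3 (by linarith) h1
  · have ha := aa_pos hP.hl (by linarith : 9 * l ^ 2 < nn x)
    rw [EE_eq hP.hρ ha, ← mul_assoc]
    apply mul_pos _ (SS_pos ha)
    have hh := abs_lt.mp (hh_near hfl hcz hP (by linarith : 9 * l ^ 2 < nn x) hx)
    rcases le_abs'.mp h1 with h | h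
    · apply mul_pos_of_neg_of_neg <;> linarith
    · apply mul_pos <;> linarith

lemma FF_ne (hfl : FloorRegStatement) (hcz : CoreZeroStatement) {ρ l : ℝ}
    (hP : Par ρ l) {x : E3} (hx : nn x ≤ 9 * ρ ^ 2)
    (h1 : 1 / 8 ≤ |x 2 + 1|) (h2 : |x 2 + 1| < 1 / 4) : FF ρ l x ≠ 0 := by
  obtain ⟨b1, b2, b3⟩ := par_bounds hP
  have h7 : 0 < ρ ^ 2 := by have := hP.hρ; positivity
  have hE := EE_sign hfl hcz hP hx h1
  have hF := pos_mul_FS (by linarith : nn x ≤ 16 / 10000) h1 h2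
  have hp0 : 0 ≤ bet ρ (nn x) * gam (x 2) := mul_nonneg (bet_nonneg _ _) (gam_nonneg _)
  have hp1 : bet ρ (nn x) * gam (x 2) ≤ 1 := by
    calc bet ρ (nn x) * gam (x 2) ≤ 1 * 1 :=
          mul_le_mul (bet_le_one _ _) (gam_le_one _) (gam_nonneg _) (by norm_num)
      _ = 1 := by norm_num
  have key : 0 < (x 2 + 1) * FF ρ l x := by
    have e : (x 2 + 1) * FF ρ l x = (bet ρ (nn x) * gam (x 2)) * ((x 2 + 1) * EE ρ l x)
        + (1 - bet ρ (nn x) * gam (x 2)) * ((x 2 + 1) * FS x) := by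
      unfold FF; ring
    rw [e]
    rcases hp0.lt_or_eq with h | h
    · have := mul_pos h hE
      have := mul_nonneg (sub_nonneg.mpr hp1) hF.le
      linarith
    · rw [← h]; linarith
  intro h
  rw [h, mul_zero] at key
  exact lt_irrefl _ key

/-! ## The image -/

lemma mem_img {ρ l : ℝ} {x : E3} : x ∈ Img ρ l ↔
    (∃ b, nn (floorX ρ l b) ≤ 4 * ρ ^ 2 ∧ x = floorX ρ l b) ∨ x ∈ SigPart ρ := by
  unfold Img Surf
  constructor
  · rintro ⟨p, (⟨b, hb, rfl⟩ | ⟨h1, h2⟩), rfl⟩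
    · left; exact ⟨b, hb, rfl⟩
    · right; exact h1
  · rintro (⟨b, hb, rfl⟩ | h)
    · exact ⟨floorP ρ l b, Or.inl ⟨b, hb, rfl⟩, rfl⟩
    · exact ⟨(x, 0), Or.inr ⟨h, rfl⟩, rfl⟩

lemma mem_img_far (hfl : FloorRegStatement) {ρ l : ℝ} (hP : Par ρ l) {x : E3}
    (hx : nn x < 4) (h : 9 * ρ ^ 2 ≤ nn x ∨ 1 / 4 ≤ |x 2 + 1|) : x ∈ Img ρ l ↔ FS x = 0 := by
  have h7 : 0 < ρ ^ 2 := by have := hP.hρ; positivity
  rw [mem_img]
  constructor
  · rintro (⟨b, hb, rfl⟩ | h1)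
    · exfalso
      have := ((hfl ρ l hP).1 b (by linarith)).2.2
      rcases h with h | h <;> linarith
    · exact h1.1
  · intro h1
    right
    refine ⟨h1, hx, ?_⟩
    rcases h with h | h
    · left; linarith
    · right; linarith

lemma not_mem_img (hfl : FloorRegStatement) {ρ l : ℝ} (hP : Par ρ l) {x : E3}
    (hx : nn x ≤ 9 * ρ ^ 2) (h1 : 1 / 8 ≤ |x 2 + 1|) (h2 : |x 2 + 1| ≤ 1 / 4) :
    x ∉ Img ρ l := by
  obtain ⟨b1, b2, b3⟩ := par_bounds hP
  have h7 : 0 < ρ ^ 2 := by have := hP.hρ; positivity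
  rw [mem_img]
  rintro (⟨b, hb, rfl⟩ | h)
  · have := ((hfl ρ l hP).1 b (by linarith)).2.2
    linarith
  · have := FS_zero_far (by linarith : nn x ≤ 16 / 10000) h.1 h1
    linarith

lemma mem_img_core (hfl : FloorRegStatement) (hcz : CoreZeroStatement) {ρ l : ℝ}
    (hP : Par ρ l) {x : E3} (hx : nn x ≤ ρ ^ 2 / 4) (h1 : |x 2 + 1| < 1 / 8) :
    x ∈ Img ρ l ↔ GG l x = 0 := by
  have h7 : 0 < ρ ^ 2 := by have := hP.hρ; positivity
  rw [mem_img, ← floor_iff_core hfl hcz hP (by linarith : nn x ≤ ρ ^ 2)]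
  constructor
  · rintro (⟨b, hb, rfl⟩ | h)
    · exact ⟨b, rfl⟩
    · exfalso
      rcases h.2.2 with h | h <;> linarith
  · rintro ⟨b, rfl⟩
    left; exact ⟨b, by linarith, rfl⟩

lemma mem_img_mid (hfl : FloorRegStatement) (hcz : CoreZeroStatement) {ρ l : ℝ}
    (hP : Par ρ l) {x : E3} (hx : ρ ^ 2 / 4 ≤ nn x) (hx' : nn x ≤ 9 * ρ ^ 2)
    (h1 : |x 2 + 1| < 1 / 8) : x ∈ Img ρ l ↔ x 2 = hh ρ l x := by
  obtain ⟨b1, b2, b3⟩ := par_bounds hP
  have h7 : 0 < ρ ^ 2 := by have := hP.hρ; positivity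
  have hl9 : 9 * l ^ 2 < nn x := by linarith
  have hx2 : nn x ≤ 16 / 10000 := by linarith
  rw [mem_img]
  constructor
  · rintro (⟨b, hb, rfl⟩ | h)
    · exact (floor_iff hfl hcz hP hl9).mp ⟨b, rfl⟩
    · rcases h.2.2 with h' | h'
      · have : hh ρ l x = hS x := by unfold hh; rw [chi_one hP.hρ h']; ring
        rw [this]
        have h0 := h.1
        rw [FS_factor hx2] at h0
        have hp : 0 < PS x := PS_pos hx2 (by linarith)
        rcases mul_eq_zero.mp h0 with h0 | h0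
        · linarith
        · exact absurd h0 hp.ne'
      · linarith
  · intro h
    rcases le_or_gt (nn x) (4 * ρ ^ 2) with h' | h'
    · left
      obtain ⟨b, rfl⟩ := (floor_iff hfl hcz hP hl9).mpr h
      exact ⟨b, h', rfl⟩
    · right
      have e : hh ρ l x = hS x := by unfold hh; rw [chi_one hP.hρ h'.le]; ring
      refine ⟨?_, by linarith, Or.inl h'.le⟩
      rw [FS_factor hx2, h, e, sub_self, zero_mul]

lemma clause3 (hfl : FloorRegStatement) (hcz : CoreZeroStatement) {ρ l : ℝ}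
    (hP : Par ρ l) {x : E3} (hx : nn x < 4) : FF ρ l x = 0 ↔ x ∈ Img ρ l := by
  obtain ⟨b1, b2, b3⟩ := par_bounds hP
  have h7 : 0 < ρ ^ 2 := by have := hP.hρ; positivity
  by_cases h : 9 * ρ ^ 2 ≤ nn x ∨ 1 / 4 ≤ |x 2 + 1|
  · rw [FF_eq_FS hP.hρ h, mem_img_far hfl hP hx h]
  push Not at h
  obtain ⟨h1, h2⟩ := h
  rcases le_or_gt (1 / 8) (|x 2 + 1|) with h3 | h3
  · have e1 := FF_ne hfl hcz hP h1.le h3 h2
    have e2 := not_mem_img hfl hP h1.le h3 h2.le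
    exact iff_of_false e1 e2
  rcases le_total (nn x) (ρ ^ 2 / 4) with h4 | h4
  · rw [FF_eq_GG hP.hρ h4 h3.le, mem_img_core hfl hcz hP h4 h3]
  · have ha := aa_pos hP.hl (by linarith : 9 * l ^ 2 < nn x)
    rw [FF_eq hP.hρ ha (by linarith) h3.le, mem_img_mid hfl hcz hP h4 h1.le h3, mul_eq_zero]
    have := RR_pos (ρ := ρ) ha (by linarith) (by linarith)
    constructor
    · rintro (h | h)
      · linarith
      · exact absurd h this.ne'
    · intro h; left; linarith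

/-! ## Smoothness -/

lemma cd_coord (i : Fin 3) : ContDiff ℝ ∞ (fun x : E3 => x i) :=
  (EuclideanSpace.proj i : E3 →L[ℝ] ℝ).contDiff

lemma cd_nn : ContDiff ℝ ∞ nn := by
  have h0 := cd_coord 0
  have h1 := cd_coord 1
  unfold nn; exact (h0.pow 2).add (h1.pow 2)

lemma cd_cc : ContDiff ℝ ∞ cc := by
  have h0 := cd_coord 0
  have h1 := cd_coord 1
  unfold cc; exact (h1.pow 3).sub ((contDiff_const.mul (h0.pow 2)).mul h1)

lemma cd_dd : ContDiff ℝ ∞ dd := by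
  have h0 := cd_coord 0
  have h1 := cd_coord 1
  unfold dd; exact (h0.pow 3).sub ((contDiff_const.mul h0).mul (h1.pow 2))

lemma cd_tt : ContDiff ℝ ∞ tt := by
  unfold tt; exact (contDiff_const.sub (contDiff_const.mul cd_nn)).sub cd_cc

lemma cd_mm : ContDiff ℝ ∞ mm := by
  unfold mm; exact (((cd_coord 2).pow 2).add (contDiff_const.mul cd_nn)).sub contDiff_const

lemma cd_FS : ContDiff ℝ ∞ FS := by
  unfold FS; exact (cd_mm.pow 2).sub (contDiff_const.mul cd_tt)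

lemma cd_WW : ContDiff ℝ ∞ WW := by
  unfold WW; exact ((cd_coord 2).add contDiff_const).add (cd_cc.div_const 2)

lemma cd_aa (l : ℝ) : ContDiff ℝ ∞ (aa l) := by
  unfold aa
  exact contDiff_const.mul (((cd_nn.pow 2).sub (contDiff_const.mul cd_nn)).sub
    (contDiff_const.mul cd_dd))

lemma cd_bb (l : ℝ) : ContDiff ℝ ∞ (bb l) := by
  unfold bb
  exact (contDiff_const.mul (cd_nn.sub contDiff_const)).mul cd_cc

lemma cd_GG (l : ℝ) : ContDiff ℝ ∞ (GG l) := by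
  have : GG l = fun x => WW x ^ 3 + aa l x * WW x + bb l x := by
    funext x; exact GG_eq l x
  rw [this]
  exact ((cd_WW.pow 3).add ((cd_aa l).mul cd_WW)).add (cd_bb l)

lemma cd_phi (ρ : ℝ) : ContDiff ℝ ∞ (fun x : E3 => phi ρ (nn x)) := by
  unfold phi
  exact contDiff_const.sub (Real.smoothTransition.contDiff.comp
    ((cd_nn.sub contDiff_const).div_const _))

lemma cd_bet (ρ : ℝ) : ContDiff ℝ ∞ (fun x : E3 => bet ρ (nn x)) := by
  unfold bet
  exact contDiff_const.sub (Real.smoothTransition.contDiff.comp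
    ((cd_nn.sub contDiff_const).div_const _))

lemma cd_chi (ρ : ℝ) : ContDiff ℝ ∞ (fun x : E3 => chi ρ (nn x)) := by
  unfold chi
  exact Real.smoothTransition.contDiff.comp
    (((cd_nn.div_const _).sub contDiff_const).div_const _)

lemma cd_gam : ContDiff ℝ ∞ (fun x : E3 => gam (x 2)) := by
  unfold gam
  exact contDiff_const.sub (Real.smoothTransition.contDiff.comp
    (((((cd_coord 2).add contDiff_const).pow 2).sub contDiff_const).div_const _))

lemma cda_hc {l : ℝ} {x : E3} (ha : 0 < aa l x) : ContDiffAt ℝ ∞ (hc l) x := by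
  have hk : ContDiffAt ℝ ∞ (kk l) x := by
    unfold kk
    exact ((cd_aa l).contDiffAt.div_const 3).sqrt (by positivity)
  have hk0 : 0 < kk l x := Real.sqrt_pos.mpr (by positivity)
  have hw : ContDiffAt ℝ ∞ (w0 l) x := by
    unfold w0
    have h1 : ContDiffAt ℝ ∞ (fun y => Real.arsinh (-(bb l y) / (2 * kk l y ^ 3)) / 3) x :=
      ((((cd_bb l).contDiffAt.neg).div (contDiffAt_const.mul (hk.pow 3))
        (by positivity)).arsinh).div_const 3
    exact (contDiffAt_const.mul hk).mul (Real.contDiff_sinh.contDiffAt.comp x h1)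
  unfold hc
  exact (contDiffAt_const.sub (cd_cc.contDiffAt.div_const 2)).add hw

lemma cda_hS {x : E3} (hx : nn x ≤ 16 / 10000) : ContDiffAt ℝ ∞ hS x := by
  have h1 : tt x ≠ 0 := by linarith [(tt_bounds hx).1]
  have h2 : qq x ≠ 0 := by linarith [(qq_bounds hx).1]
  have hq : ContDiffAt ℝ ∞ qq x := by
    unfold qq
    exact (contDiffAt_const.sub (contDiffAt_const.mul cd_nn.contDiffAt)).sub
      (contDiffAt_const.mul (cd_tt.contDiffAt.sqrt h1))
  unfold hS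
  exact (hq.sqrt h2).neg

lemma cda_EE {ρ l : ℝ} {x : E3} (ha : 0 < aa l x) (hx : nn x ≤ 16 / 10000) :
    ContDiffAt ℝ ∞ (EE ρ l) x := by
  have hhh : ContDiffAt ℝ ∞ (hh ρ l) x := by
    unfold hh
    exact ((contDiffAt_const.sub (cd_chi ρ).contDiffAt).mul (cda_hc ha)).add
      ((cd_chi ρ).contDiffAt.mul (cda_hS hx))
  unfold EE
  exact ((cd_phi ρ).contDiffAt.mul (cd_GG l).contDiffAt).add
    ((contDiffAt_const.sub (cd_phi ρ).contDiffAt).mul ((cd_coord 2).contDiffAt.sub hhh))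

lemma cda_FF_of {ρ l : ℝ} {x : E3} (h : ContDiffAt ℝ ∞ (EE ρ l) x) :
    ContDiffAt ℝ ∞ (FF ρ l) x := by
  unfold FF
  exact (((cd_bet ρ).contDiffAt.mul cd_gam.contDiffAt).mul h).add
    ((contDiffAt_const.sub ((cd_bet ρ).contDiffAt.mul cd_gam.contDiffAt)).mul
      cd_FS.contDiffAt)

lemma FF_eventually_FS {ρ l : ℝ} (hρ : 0 < ρ) {x : E3}
    (h : 9 * ρ ^ 2 < nn x ∨ 1 / 4 < |x 2 + 1|) : FF ρ l =ᶠ[𝓝 x] FS := by
  have hc : Continuous (fun y : E3 => |y 2 + 1|) :=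
    ((cd_coord 2).continuous.add continuous_const).abs
  rcases h with h | h
  · filter_upwards [(isOpen_lt continuous_const cd_nn.continuous).mem_nhds h] with y hy
    exact FF_eq_FS hρ (Or.inl (le_of_lt hy))
  · filter_upwards [(isOpen_lt continuous_const hc).mem_nhds h] with y hy
    exact FF_eq_FS hρ (Or.inr (le_of_lt hy))

lemma cd_FF {ρ l : ℝ} (hP : Par ρ l) : ContDiff ℝ ∞ (FF ρ l) := by
  obtain ⟨b1, b2, b3⟩ := par_bounds hP
  have h7 : 0 < ρ ^ 2 := by have := hP.hρ; positivity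
  rw [contDiff_iff_contDiffAt]
  intro x
  rcases lt_or_ge (nn x) (ρ ^ 2 / 4) with h | h
  · apply cda_FF_of
    have : EE ρ l =ᶠ[𝓝 x] GG l := by
      filter_upwards [(isOpen_lt cd_nn.continuous continuous_const).mem_nhds h] with y hy
      unfold EE
      rw [phi_one hP.hρ (le_of_lt hy)]; ring
    exact (cd_GG l).contDiffAt.congr_of_eventuallyEq this
  rcases le_or_gt (nn x) (9 * ρ ^ 2) with h' | h'
  · exact cda_FF_of (cda_EE (aa_pos hP.hl (by linarith)) (by linarith))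
  · exact cd_FS.contDiffAt.congr_of_eventuallyEq (FF_eventually_FS hP.hρ (Or.inl h'))

/-! ## Regularity -/

def vline (x : E3) (s : ℝ) : E3 := x + s • EuclideanSpace.single 2 (1 : ℝ)

lemma vline0 (x : E3) (s : ℝ) : vline x s 0 = x 0 := by simp [vline]
lemma vline1 (x : E3) (s : ℝ) : vline x s 1 = x 1 := by simp [vline]
lemma vline2 (x : E3) (s : ℝ) : vline x s 2 = x 2 + s := by simp [vline]
lemma vline_zero (x : E3) : vline x 0 = x := by simp [vline]

lemma vline_deriv {ρ l : ℝ} (hP : Par ρ l) (x : E3) :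
    HasDerivAt (fun s => FF ρ l (vline x s))
      (fderiv ℝ (FF ρ l) x (EuclideanSpace.single 2 (1 : ℝ))) 0 := by
  have h1 : HasFDerivAt (FF ρ l) (fderiv ℝ (FF ρ l) x) x :=
    ((cd_FF hP).differentiable (by simp) x).hasFDerivAt
  have h2 : HasDerivAt (vline x) (EuclideanSpace.single 2 (1 : ℝ)) 0 := by
    have : HasDerivAt (fun s : ℝ => x + s • EuclideanSpace.single (2 : Fin 3) (1 : ℝ))
      (0 + (1 : ℝ) • EuclideanSpace.single (2 : Fin 3) (1 : ℝ)) 0 :=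
      (hasDerivAt_const _ _).add ((hasDerivAt_id (0 : ℝ)).smul_const _)
    rw [zero_add, one_smul] at this
    exact this
  have h3 : HasFDerivAt (FF ρ l) (fderiv ℝ (FF ρ l) x) (vline x 0) := by
    rw [vline_zero]; exact h1
  exact h3.comp_hasDerivAt 0 h2

/-- `RR` on the vertical line is a polynomial in `s` -/
lemma RR_line_diff (ρ l : ℝ) (x : E3) :
    DifferentiableAt ℝ (fun s => RR ρ l (vline x s)) 0 := by
  have e : (fun s => RR ρ l (vline x s)) = fun s =>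
      bet ρ (nn x) * (phi ρ (nn x) * ((x 2 + s + 1 + cc x / 2) ^ 2
        + (x 2 + s + 1 + cc x / 2) * w0 l x + w0 l x ^ 2 + aa l x) + (1 - phi ρ (nn x)))
      + (1 - bet ρ (nn x)) * ((x 2 + s - √(qq x)) * ((x 2 + s) ^ 2 - qo x)) := by
    funext s
    have h0 := vline0 x s
    have h1 := vline1 x s
    have h2 := vline2 x s
    simp only [RR, SS, PS, WW, w0, kk, aa, bb, qq, qo, tt, nn, cc, dd, h0, h1, h2]
  rw [e]
  fun_prop

lemma fderiv_ne {ρ l : ℝ} (hP : Par ρ l) {x : E3}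
    (hx : ρ ^ 2 / 4 ≤ nn x) (hx' : nn x ≤ 9 * ρ ^ 2) (h1 : |x 2 + 1| < 1 / 8)
    (h0 : x 2 = hh ρ l x) : fderiv ℝ (FF ρ l) x ≠ 0 := by
  obtain ⟨b1, b2, b3⟩ := par_bounds hP
  have h7 : 0 < ρ ^ 2 := by have := hP.hρ; positivity
  have hl9 : 9 * l ^ 2 < nn x := by linarith
  have hx2 : nn x ≤ 16 / 10000 := by linarith
  have ha := aa_pos hP.hl hl9
  have hR := RR_pos (ρ := ρ) ha hx2 (by linarith : |x 2 + 1| < 1 / 2)
  intro hcon
  have d1 := vline_deriv hP x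
  rw [hcon] at d1
  have d2 : HasDerivAt (fun s => s * RR ρ l (vline x s))
      (1 * RR ρ l (vline x 0) + 0 * deriv (fun s => RR ρ l (vline x s)) 0) 0 :=
    (hasDerivAt_id (0 : ℝ)).mul (RR_line_diff ρ l x).hasDerivAt
  have hc : Continuous (fun s : ℝ => |x 2 + s + 1|) := by fun_prop
  have ev : (fun s => FF ρ l (vline x s)) =ᶠ[𝓝 0] (fun s => s * RR ρ l (vline x s)) := by
    have h1' : |x 2 + 0 + 1| < 1 / 8 := by simpa using h1
    filter_upwards [(isOpen_lt hc continuous_const).mem_nhds h1'] with s hs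
    have hn : nn (vline x s) = nn x := nn_congr (vline0 x s) (vline1 x s)
    rw [FF_eq hP.hρ (by rw [aa_congr (vline0 x s) (vline1 x s)]; exact ha)
      (by rw [hn]; exact hx2) (by rw [vline2]; exact le_of_lt hs)]
    rw [hh_congr (vline0 x s) (vline1 x s), vline2, h0]
    ring
  have d3 := d2.congr_of_eventuallyEq ev
  have := d1.unique d3
  rw [vline_zero] at this
  simp at this
  exact hR.ne' this.symm

theorem fex (hfl : FloorRegStatement) (hcz : CoreZeroStatement) (hsr : SigRegStatement) :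
    FexStatement := by
  intro ρ l hP
  obtain ⟨b1, b2, b3⟩ := par_bounds hP
  have h7 : 0 < ρ ^ 2 := by have := hP.hρ; positivity
  refine ⟨FF ρ l, cd_FF hP, ?_, ?_, ?_, ?_⟩
  · intro x h1 h2
    exact FF_eq_GG hP.hρ h1.le h2.le
  · intro x h
    exact FF_eq_FS hP.hρ h
  · intro x hx
    exact clause3 hfl hcz hP hx
  · intro x hx
    by_cases h : 9 * ρ ^ 2 < nn x ∨ 1 / 4 < |x 2 + 1|
    · right
      have hS4 : x ∈ SigPart ρ := by
        rcases mem_img.mp hx with ⟨b, hb, rfl⟩ | h1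
        · exfalso
          have := ((hfl ρ l hP).1 b (by linarith)).2.2
          rcases h with h | h <;> linarith
        · exact h1
      rw [(FF_eventually_FS hP.hρ h).fderiv_eq]
      exact hsr.2.2.2.2.1 x hS4.1 hS4.2.1.le
    push Not at h
    obtain ⟨h1, h2⟩ := h
    have h3 : |x 2 + 1| < 1 / 8 := by
      by_contra hcon
      push Not at hcon
      exact not_mem_img hfl hP h1 hcon h2 hx
    rcases lt_or_ge (nn x) (ρ ^ 2 / 4) with h4 | h4
    · left; exact ⟨h4, h3⟩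
    · right
      exact fderiv_ne hP h4 h1 h3 ((mem_img_mid hfl hcz hP h4 h1 h3).mp hx)

end

end Pool.Agent.Tight.H5
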